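import Pool.Agent.Helper93_FL.AStmts

set_option autoImplicit false

namespace Pool.Agent.FL.H57

universe u

variable {B : Type u} [CompleteBooleanAlgebra B]

theorem bmem_sb (b : ℕ → B) (x : BSet B) : bmem x (sb b) = ⨆ n, b n ⊓ beq x (nn B n) := by
  change (⨆ n : ULift ℕ, b n.down ⊓ beq x (nn B n.down)) = _
  exact Equiv.ulift.iSup_comp (g := fun n : ℕ => b n ⊓ beq x (nn B n))

theorem bmem_nn (x : BSet B) (n : ℕ) : bmem x (nn B n) = ⨆ i : Fin n, beq x (nn B i) := by
  cases n with
  | zero =>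
    rw [nn]
    apply le_antisymm
    · exact iSup_le (fun i : PEmpty => i.elim)
    · exact iSup_le (fun i : Fin 0 => i.elim0)
  | succ n =>
    rw [nn]
    change (⨆ i : ULift (Fin (n + 1)), ⊤ ⊓ beq x (nn B i.down.val)) = _
    simp only [top_inf_eq]
    exact Equiv.ulift.iSup_comp (g := fun i : Fin (n + 1) => beq x (nn B i.val))

theorem bmem_nn_succ (x : BSet B) (n : ℕ) :
    bmem x (nn B (n + 1)) = bmem x (nn B n) ⊔ beq x (nn B n) := by
  rw [bmem_nn, bmem_nn]
  apply le_antisymm
  · refine iSup_le fun i => ?_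
    rcases Nat.lt_succ_iff_lt_or_eq.1 i.2 with h | h
    · exact le_sup_of_le_left (le_iSup (fun i : Fin n => beq x (nn B i)) ⟨i, h⟩)
    · rw [h]
      exact le_sup_right
  · refine sup_le (iSup_le fun i => ?_) ?_
    · exact le_iSup (fun i : Fin (n + 1) => beq x (nn B i)) ⟨i, by omega⟩
    · exact le_iSup (fun i : Fin (n + 1) => beq x (nn B i)) ⟨n, by omega⟩

theorem a3 (h1 : A1Stmt) : A3Stmt := by
  intro B _
  obtain ⟨hrefl, hsymm, -, -, hmem, -⟩ := h1 B
  have lt_bot : ∀ m : ℕ, ∀ i < m, beq (nn B m) (nn B i) = ⊥ := by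
    intro m
    induction m using Nat.strong_induction_on with
    | _ m ih =>
      intro i hi
      rw [← le_bot_iff]
      have h2 := hmem (nn B i) (nn B m) (nn B i)
      have h3 : bmem (nn B i) (nn B m) = ⊤ := by
        rw [← top_le_iff, bmem_nn, ← hrefl (nn B i)]
        exact le_iSup (fun j : Fin m => beq (nn B i) (nn B j)) ⟨i, hi⟩
      rw [h3, inf_top_eq] at h2
      refine h2.trans ?_
      rw [bmem_nn]
      refine iSup_le fun j => ?_
      rw [ih i hi j j.2]
  have ne_bot : ∀ n m : ℕ, n ≠ m → beq (nn B n) (nn B m) = ⊥ := by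
    intro n m h
    rcases Nat.lt_or_gt_of_ne h with h | h
    · rw [hsymm]
      exact lt_bot m n h
    · exact lt_bot n m h
  refine ⟨?_, bmem_nn_succ, ne_bot, ?_, bmem_sb⟩
  · intro x
    rw [bmem_nn, ← le_bot_iff]
    exact iSup_le fun i => i.elim0
  · intro b n
    rw [bmem_sb]
    apply le_antisymm
    · refine iSup_le fun m => ?_
      by_cases h : n = m
      · subst h
        exact inf_le_left
      · rw [ne_bot n m h, inf_bot_eq]
        exact bot_le
    · refine le_iSup_of_le n ?_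
      rw [hrefl, inf_top_eq]

end Pool.Agent.FL.H57
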